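import Pool.Agent.LongCyc.Stmt
import Pool.Agent.LongCyc.Final3
import Pool.Agent.LongCyc.CoreGlue
import Pool.Agent.LongCyc.Iter3
import Pool.Agent.LongCyc.Dense.DenseFinal

/-!
# Long cycles in the percolated hypercube

There are constants `c0, C0 > 0` such that for every `p = p(d)` with `p d ≥ C0`, with high
probability `Q^d_p` has a cycle of length at least `(1 - exp (-c0 p d)) 2 ^ d`.
-/

set_option autoImplicit false

namespace Pool.Agent.Results.MP_ebc051_pr.LongCycles

open Filter Topology Pool.Agent.LongCyc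

/-- **Theorem.** There are constants `c0 > 0` and `C0 > 0` such that for every function
`p = p(d)` with values in `[0, 1]` and `p d ≥ C0` for all large `d`, the probability that the
percolated hypercube `Q^d_p` contains a cycle of length at least
`(1 - exp (-c0 * (p * d))) * 2 ^ d` tends to `1`. -/
theorem result : ∃ c0 : ℝ, 0 < c0 ∧ ∃ C0 : ℝ, 0 < C0 ∧
    ∀ p : ℕ → ℝ, (∀ d, 0 ≤ p d ∧ p d ≤ 1) → (∀ᶠ d in atTop, C0 ≤ p d * d) →
      Tendsto (fun d : ℕ => percProb (hypercube d) (p d) fun H =>
        HasCycleGe H ((1 - Real.exp (-c0 * (p d * d))) * 2 ^ d)) atTop (𝓝 1) :=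
  full_final (sparseCore_of_iter iterRes) Pool.Agent.LongCyc.Dense.denseCore

end Pool.Agent.Results.MP_ebc051_pr.LongCycles
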